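import Pool.Agent.Lib.MP_361a6f_ag.FL.CM.Mat
import Pool.Agent.Lib.MP_361a6f_ag.FL.TT.Bas
import Pool.Agent.Lib.MP_361a6f_ag.FL.PT0.Fin

/-!
# Complex multiplication: positivity in length four

`X'` has one endomorphism `F` with `F^* ξ' = q ξ'` and with `2 g` different eigenvalues on `H^1(X')`.
-/

open CategoryTheory AlgebraicGeometry MonoidalCategory CartesianMonoidalCategory

universe u v u' w w'

set_option autoImplicit false
set_option linter.unusedSectionVars false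

namespace Pool.Agent.Lib.MP_361a6f_ag.FL.CM

open Pool.Agent.Lib.MP_361a6f_ag.H3 Pool.Agent.Lib.MP_361a6f_ag.SQ
  Pool.Agent.Lib.MP_361a6f_ag.PP Pool.Agent.Lib.MP_361a6f_ag.FL.E
  Pool.Agent.Lib.MP_361a6f_ag.FL.E.QS Pool.Agent.Lib.MP_361a6f_ag.FL.PT
  Pool.Agent.Lib.MP_361a6f_ag.FL.PT0

noncomputable section

section host

variable {k : Type u} [Field k] {W : CohomologyData.{u, 0, w} k ℂ} {𝒱 : VarietyClass k}
  (H : Host W 𝒱 1)

/-- the adapted basis in the new host -/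
theorem hb_fY {Y : Matrix (Sub H.D (0, 1)) (Sub H.D (0, 1)) ℂ} (hG : IsG (subD H.D (0, 1)) Y)
    (j : Sub H.D (0, 1)) : (hb H (isG_extM hG)).e 0 (j : H.I) = fY H Y j := by
  rw [hb_e, fY, vec1_apply, ← Finset.sum_filter_add_sum_filter_not Finset.univ
    (fun z : H.I => H.D.typ z = (0, 1)), Finset.sum_eq_zero (s := Finset.univ.filter
      fun z : H.I => ¬ H.D.typ z = (0, 1)), add_zero]
  · refine (Finset.sum_bij (fun (z : Sub H.D (0, 1)) _ => (z : H.I)) ?_ ?_ ?_ ?_).symm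
    · intro z _
      exact Finset.mem_filter.2 ⟨Finset.mem_univ _, z.2⟩
    · intro z _ z' _ h
      exact Subtype.ext h
    · intro z hz
      exact ⟨⟨z, (Finset.mem_filter.1 hz).2⟩, Finset.mem_univ _, rfl⟩
    · intro z _
      rw [extM_in]
  · intro z hz
    rw [extM_typ Y (fun e => (Finset.mem_filter.1 hz).2 (e.trans j.2)), zero_smul]

/-- **The frame of the basis of eigenvectors.** -/
theorem exists_fr {Y : Matrix (Sub H.D (0, 1)) (Sub H.D (0, 1)) ℂ}
    (hG : IsG (subD H.D (0, 1)) Y) (hA : AbelianType W (H.X 0) (H.n 0))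
    (hξ : PositiveDivisor W (H.X 0) (H.n 0) (H.ξ 0)) (hg : 0 < H.n 0) {F : H.X 0 ⟶ H.X 0}
    {a : Sub H.D (0, 1) → ℂ} (hF : ∀ j, W.pull F (fY H Y j) = a j • fY H Y j)
    (ha : Function.Injective a)
    (haτ : ∀ j, a ((subD H.D (0, 1)).τ j) = (starRingEnd ℂ) (a j)) :
    ∃ F : Fr W (H.X 0) (H.n 0) (H.ξ 0) (Sub H.D (0, 1)), F.f = fY H Y ∧
      F.τ = (subD H.D (0, 1)).τ ∧ F.s = fun j => -(subD H.D (0, 1)).s j := by
  obtain ⟨c, κ, hc, hκ, h1, h2⟩ := Theta.facts H.hW (H.mem 0) hA hξ (H.lam 0) (e := fY H Y)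
    (fun i => vec1_gr H _) (Theta.hs H) (subD H.D (0, 1)).τ_τ (Theta.hsτ H) (psi_fY H hG)
    (span_fY H hG) hg
  refine ⟨{ f := fY H Y
            τ := (subD H.D (0, 1)).τ
            s := fun j => -(subD H.D (0, 1)).s j
            c := c
            κ := κ
            f_gr := fun i => vec1_gr H _
            τ_τ := (subD H.D (0, 1)).τ_τ
            s_sq := fun j => by rw [neg_mul_neg]; exact Theta.hs H j
            s_τ := fun j => by rw [Theta.hsτ H j]
            c_pos := hc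
            κ_pos := hκ
            ξ_eq := h1
            tr := h2
            diag := fun z hz => ?_ }, rfl, rfl, rfl⟩
  obtain ⟨p, hp⟩ := exists_real ha haτ hz
  have h3 := LX_poly (W := W) hF p
  have e : (fun j => z j • fY H Y j) = fun j => Polynomial.aeval (a j) p • fY H Y j := by
    funext j
    rw [hp]
  rw [e]
  exact h3

variable {H}

/-- the hypothesis of `psd_of_words` in length four -/
theorem pair_of_fr (hB : B30Statement.{u, w}) (r1 : RowA1.{w}) (r2 : RowA2.{w})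
    (Lw : Law W (H.X 0)) {E : ∀ Z : Sch k, ℕ → Set (W.coh Z)}
    (hE : Eff0 W (H.X 0) (H.n 0) (H.ξ 0) E)
    (hA : AbelianType W (H.X 0) (H.n 0))
    (F : Fr W (H.X 0) (H.n 0) (H.ξ 0) (Sub H.D (0, 1)))
    (hfe : ∀ j, F.f j = H.e 0 (j : H.I)) (hτ : F.τ = (subD H.D (0, 1)).τ)
    (hs : F.s = fun j => -(subD H.D (0, 1)).s j)
    (P : PT.PSys (subD H.D (0, 1)) (At1 H))
    (w : Fin 4 → Sub H.D (0, 1)) (t : Ten (Sub H.D (0, 1)) 4)
    (ht : t ∈ Submodule.span ℝ {u | At1 H 4 u})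
    (h0 : ∀ w', w' ≠ w → w' ≠ (subD H.D (0, 1)).τ ∘ w → t w' = 0) :
    ∃ r : ℝ, 0 ≤ r ∧ sg (subD H.D (0, 1)) w * (t w * t ((subD H.D (0, 1)).τ ∘ w)) = (r : ℂ) := by
  classical
  set D1 := subD H.D (0, 1) with hD1
  have hg : 0 < H.n 0 := pos_dim (w 0)
  have hspan : ∀ v ∈ W.gr (H.X 0) 1, v ∈ Submodule.span ℂ (Set.range F.f) := fun v hv => by
    have e : F.f = fY H 1 := funext fun j => by rw [hfe, fY_one]
    rw [e]
    exact span_fY H (alg1.G_one D1) v hv
  have hne : D1.τ ∘ w ≠ w := fun h => (D1.odd_τ (w 0) (P.odd _)).1 (congrFun h 0)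
  have hττ : D1.τ ∘ (D1.τ ∘ w) = w := funext fun i => D1.τ_τ (w i)
  have hsgτ : sg D1 (D1.τ ∘ w) = sg D1 w := by
    unfold sg
    rw [Fin.prod_univ_four, Fin.prod_univ_four]
    simp only [Function.comp_apply, (D1.odd_τ _ (P.odd _)).2]
    ring
  -- the value of `ψ`
  have hψ : psiT D1 t t = 2 * (sg D1 w * (t w * t (D1.τ ∘ w))) := by
    unfold psiT
    rw [Finset.sum_eq_add w (D1.τ ∘ w) hne.symm]
    · rw [hττ, hsgτ]
      ring
    · intro v _ hv
      rw [h0 v hv.1 hv.2, zero_mul, mul_zero]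
    · intro h
      exact absurd (Finset.mem_univ _) h
    · intro h
      exact absurd (Finset.mem_univ _) h
  obtain ⟨ρ, hρ⟩ := Rsp.psi_real D1 P.sys (L := 4) (u := t) (v := t) ht ht
  have h2 : sg D1 w * (t w * t (D1.τ ∘ w)) = ((ρ / 2 : ℝ) : ℂ) := by
    rw [hρ] at hψ
    push_cast
    linear_combination (-1 / 2 : ℂ) * hψ
  refine ⟨ρ / 2, ?_, h2⟩
  -- the class
  have hcls := cls_real H Q4w 2 rfl (u := t) ht
  have hE4 : cls H Q4w t = t w • H.E Q4w (up w) + t (D1.τ ∘ w) • H.E Q4w (up (D1.τ ∘ w)) := by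
    rw [cls_eq]
    refine (Finset.sum_eq_add w (D1.τ ∘ w) hne.symm ?_ ?_ ?_)
    · intro v _ hv
      rw [h0 v hv.1 hv.2, zero_smul]
    · intro h
      exact absurd (Finset.mem_univ _) h
    · intro h
      exact absurd (Finset.mem_univ _) h
  rw [hE4] at hcls
  refine hB r1 r2 H.hW (H.mem 0) hg Lw (H.ξ_alg 0) hA.gen hE F hspan w (t w) (t (D1.τ ∘ w)) ?_
    (ρ / 2) ?_
  · have e1 := E_Q4w H (up w)
    have e2 := E_Q4w H (up (D1.τ ∘ w))
    rw [hτ]
    simp only [hfe]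
    have e3 : ∀ x y x' y' : W.coh (Y4 (H.X 0)), x = x' → y = y' →
        t w • x + t (D1.τ ∘ w) • y ∈
          Submodule.span ℝ (W.alg (Y4 (H.X 0)) 2 : Set (W.coh (Y4 (H.X 0)))) →
        t w • x' + t (D1.τ ∘ w) • y' ∈
          Submodule.span ℝ (W.alg (Y4 (H.X 0)) 2 : Set (W.coh (Y4 (H.X 0)))) := by
      rintro x y _ _ rfl rfl h
      exact h
    exact e3 _ _ _ _ e1 e2 hcls
  · rw [hs, ← h2]
    congr 1
    unfold sg
    rw [Fin.prod_univ_four, Fin.prod_univ_four]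
    ring

/-- **`ψ` is positive semidefinite in length four**, for a host with a basis `Y` of eigenvectors of
one endomorphism with different eigenvalues. -/
theorem pos_four (hB : B30Statement.{u, w}) (r1 : RowA1.{w}) (r2 : RowA2.{w})
    (Lw : Law W (H.X 0)) {E : ∀ Z : Sch k, ℕ → Set (W.coh Z)}
    (hE : Eff0 W (H.X 0) (H.n 0) (H.ξ 0) E)
    (hA : AbelianType W (H.X 0) (H.n 0)) (hξ : PositiveDivisor W (H.X 0) (H.n 0) (H.ξ 0))
    {Y : Matrix (Sub H.D (0, 1)) (Sub H.D (0, 1)) ℂ} (hG : IsG (subD H.D (0, 1)) Y)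
    (P : PT.PSys (subD H.D (0, 1)) (fun L u => At1 H L (gT Y u))) {F : H.X 0 ⟶ H.X 0}
    {a : Sub H.D (0, 1) → ℂ} (hF : ∀ j, W.pull F (fY H Y j) = a j • fY H Y j)
    (ha : Function.Injective a)
    (haτ : ∀ j, a ((subD H.D (0, 1)).τ j) = (starRingEnd ℂ) (a j))
    {u : Ten (Sub H.D (0, 1)) 4} (hu : u ∈ Submodule.span ℝ {u | At1 H 4 u}) :
    ∃ r : ℝ, 0 ≤ r ∧ psiT (subD H.D (0, 1)) u u = (r : ℂ) := by
  have e : (fun (L : ℕ) (u : Ten (Sub H.D (0, 1)) L) => At1 H L (gT Y u)) =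
      fun L u => At1 (hb H (isG_extM hG)) L u := by
    funext L u
    exact propext (exists_hb H hG L u).symm
  have P' : PT.PSys (subD H.D (0, 1)) (fun L u => At1 (hb H (isG_extM hG)) L u) := e ▸ P
  refine psd alg1 hG P (L := 3) (fun w t ht h0 => ?_) hu
  have h1 : gT Y⁻¹ (gT Y t) ∈ Submodule.span ℝ {u | At1 (hb H (isG_extM hG)) 4 u} := by
    refine Submodule.span_induction (p := fun v _ => gT Y⁻¹ v ∈
      Submodule.span ℝ {u | At1 (hb H (isG_extM hG)) 4 u}) ?_ ?_ ?_ ?_ ht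
    · intro v hv
      refine Submodule.subset_span ?_
      show At1 (hb H (isG_extM hG)) 4 (gT Y⁻¹ v)
      rw [exists_hb H hG, ← alg1.gT_mul, (alg1.G_inv (subD H.D (0, 1)) Y hG).2.1, alg1.gT_one]
      exact hv
    · have h2 := alg1.gT_smul Y⁻¹ (0 : ℂ) (0 : Ten (Sub H.D (0, 1)) 4)
      rw [zero_smul, zero_smul] at h2
      rw [h2]
      exact zero_mem _
    · intro x y _ _ hx hy
      rw [alg1.gT_add]
      exact add_mem hx hy
    · intro c x _ hx
      rw [← Complex.coe_smul, alg1.gT_smul, Complex.coe_smul]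
      exact Submodule.smul_mem _ _ hx
  rw [← alg1.gT_mul, (alg1.G_inv (subD H.D (0, 1)) Y hG).2.2, alg1.gT_one] at h1
  have hg : 0 < H.n 0 := pos_dim (w 0)
  have h3 : ∀ j : Sub H.D (0, 1), fY (hb H (isG_extM hG)) (1 : Matrix _ _ ℂ) j = fY H Y j :=
    fun j => (fY_one (H := hb H (isG_extM hG)) j).trans (hb_fY H hG j)
  obtain ⟨Fr, hf, hτ, hs⟩ := exists_fr (hb H (isG_extM hG)) (Y := (1 : Matrix _ _ ℂ))
    (alg1.G_one (subD H.D (0, 1))) hA hξ hg (F := F) (a := a)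
    (fun j => (congrArg (fun z : W.coh (H.X 0) => W.pull F z) (h3 j)).trans
      ((hF j).trans (congrArg (fun z : W.coh (H.X 0) => a j • z) (h3 j).symm))) ha haτ
  exact pair_of_fr (H := hb H (isG_extM hG)) hB r1 r2 Lw hE hA Fr
    (fun j => by rw [hf]; exact fY_one (H := hb H (isG_extM hG)) j) hτ hs P' w t h1 h0

end host

section red

variable {k : Type u} [Field k] {W : CohomologyData.{u, 0, w} k ℂ} {k' : Type u'} [Field k']
  {W' : CohomologyData.{u', 0, w'} k' ℂ} {𝒱 : VarietyClass k} {𝒱' : VarietyClass k'}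

variable (H : Host W 𝒱 1) {X' : Sch k'} {ξ' : W'.coh X'} (S : Spc W W' H.X X' H.ξ ξ')
  (hW' : IsWeilCohomology W' 𝒱') (hX' : 𝒱'.mem X' (H.n 0))
  (F : X' ⟶ X') {q : ℕ} (hq : 0 < q)
    (hc : ∀ x ∈ W.gr (H.X 0) 0, ∃ c : ℂ, x = c • (1 : W.coh (H.X 0)))
    (hp : PositiveDivisor W (H.X 0) (H.n 0) (H.ξ 0))
    (hF : W'.pull F ξ' = (((q : ℚ) : ℂ)) • ξ')
    (hM : EQ.Effective W' X' (H.n 0) ξ')
    (hS : EQ.Distinct W' (H.n 0) F)

include hW' hX' hq hc hp hF hM hS in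
/-- **`ψ` is positive semidefinite** on the real span of the algebraic tensors of length four of
the reduction. -/
theorem four {u : Ten (Sub (host2 H S hW' hX').D (0, 1)) 4}
    (hu : u ∈ Submodule.span ℝ {u | At1 (host2 H S hW' hX') 4 u}) :
    ∃ r : ℝ, 0 ≤ r ∧ psiT (subD (host2 H S hW' hX').D (0, 1)) u u = (r : ℂ) := by
  have h0 : ∀ x ∈ W'.gr X' 0, ∃ c : ℂ, x = c • (1 : W'.coh X') :=
    S.conn H.hW hW' (H.mem 0) hX' hc
  have hξ : PositiveDivisor W' X' (H.n 0) ξ' := S.posd hp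
  have hA : AbelianType W' X' (H.n 0) :=
    abelianType_of_unital hW' hX' h0 (unital_of_group hM.group) hξ
  obtain ⟨M, Y, m, hMF, hG, hMY, hm, -, hmτ⟩ := TT.basis H S hW' hX' F hq hc hp hF hM hA hS
  subst hMF
  have hsym := symH H S hW' hX' hc hp hF
  have hs := sq_ne hq
  have hodd : ∀ i : Sub (host2 H S hW' hX').D (0, 1),
      (subD (host2 H S hW' hX').D (0, 1)).odd ((subD (host2 H S hW' hX').D (0, 1)).typ i) := by
    intro i
    show (host2 H S hW' hX').D.odd ((host2 H S hW' hX').D.typ i.1)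
    rw [i.2]
    exact Hst.odd_one (host2 H S hW' hX') 0
  have P := psys alg1 alg2 (aSys_sub (α := ((0, 1) : Fin 1 × ℕ))
      (aSys_at (at_ (host2 H S hW' hX')))) hodd (fun i j => i.2.trans j.2.symm) hG hMY
    (mten_real (host2 H S hW' hX') (mten_mem (host2 H S hW' hX') hs hsym F
      (leafH H S hW' hX' F))) hm hmτ
  obtain ⟨Lw⟩ := law0 hW' hX' h0 hM
  refine pos_four (H := host2 H S hW' hX') (b30_of start0) rowA1 rowA2 Lw
    (eff0 hW' hX' h0 hξ hM) hA hξ hG P (F := F) (a := fun j => E.sq q * m j) (fun j => ?_)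
    (fun i j h => hm (mul_left_cancel₀ hs h)) (fun j => ?_) hu
  · have h1 := frob_vec1 (host2 H S hW' hX') hs hsym (FrH H S hW' hX' F (.leaf 0)) rfl
      (fun i => Y i j)
    have h2 : (FM H S hW' hX' F q).mulVec (fun i => Y i j) = m j • fun i => Y i j := by
      funext i
      have h3 := congrFun (congrFun hMY i) j
      rw [Matrix.mul_diagonal] at h3
      rw [Pi.smul_apply, smul_eq_mul, mul_comm, ← h3]
      rfl
    have h4 : ((E.sq q) • blk (PhiF.gam (host2 H S hW' hX') (E.sq q)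
        (FrH H S hW' hX' F))).mulVec (fun i => Y i j) = (E.sq q * m j) • fun i => Y i j := by
      rw [Matrix.smul_mulVec, mul_smul]
      exact congrArg _ h2
    rw [h4, map_smul] at h1
    exact h1
  · show E.sq q * m _ = (starRingEnd ℂ) (E.sq q * m j)
    rw [hmτ, map_mul]
    congr 1
    unfold E.sq
    rw [Complex.conj_ofReal]

end red

end

end Pool.Agent.Lib.MP_361a6f_ag.FL.CM
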