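import Pool.Agent.Lib.MP_361a6f_ag.FL.K0.Nd2
import Pool.Agent.Lib.MP_361a6f_ag.FL.PT.Frm
import Pool.Agent.Lib.MP_361a6f_ag.FL.PT0.NormA

/-!
# Complex multiplication: the diagonal matrices

If one endomorphism has different eigenvalues, then the real combinations of its powers are all the
diagonal matrices that the real structure allows.
-/

set_option autoImplicit false
set_option linter.unusedSectionVars false

namespace Pool.Agent.Lib.MP_361a6f_ag.FL.CM

open Pool.Agent.Lib.MP_361a6f_ag.FL.E Pool.Agent.Lib.MP_361a6f_ag.FL.E.QS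
  Pool.Agent.Lib.MP_361a6f_ag.FL.PT Polynomial

/-- real interpolation -/
theorem exists_real {ι : Type} [Fintype ι] [DecidableEq ι] {a : ι → ℂ}
    (ha : Function.Injective a) {τ : ι → ι} (hτ : ∀ i, a (τ i) = (starRingEnd ℂ) (a i)) {z : ι → ℂ}
    (hz : ∀ i, z (τ i) = (starRingEnd ℂ) (z i)) :
    ∃ p : Polynomial ℝ, ∀ i, aeval (a i) p = z i := by
  obtain ⟨U, V, hUV⟩ := PT0.exists_parts (Lagrange.interpolate Finset.univ a z)
  have hev : ∀ i, (Lagrange.interpolate Finset.univ a z).eval (a i) = z i := fun i =>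
    Lagrange.eval_interpolate_at_node (v := a) z ha.injOn (Finset.mem_univ i)
  refine ⟨U, fun i => ?_⟩
  have h1 := (hUV (a i)).1
  have h2 := (hUV (a i)).2
  rw [hev] at h1
  rw [← hτ, hev, hz, Complex.conj_conj] at h2
  linear_combination (-1 / 2 : ℂ) * h1 + (-1 / 2 : ℂ) * h2

variable {I Λ : Type} [Fintype I] [DecidableEq I] [DecidableEq Λ] {D : Dat I Λ}
  {Ct : (L : ℕ) → Ten I L → Prop}

theorem mten_add (A B : Matrix I I ℂ) : mten D (A + B) = mten D A + mten D B := by
  funext w
  show (A + B) (w 0) (D.τ (w 1)) * D.s (D.τ (w 1)) = A (w 0) (D.τ (w 1)) * D.s (D.τ (w 1)) +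
    B (w 0) (D.τ (w 1)) * D.s (D.τ (w 1))
  rw [Matrix.add_apply, add_mul]

theorem mten_sm (c : ℂ) (A : Matrix I I ℂ) : mten D (c • A) = c • mten D A := by
  funext w
  show (c • A) (w 0) (D.τ (w 1)) * D.s (D.τ (w 1)) = c * (A (w 0) (D.τ (w 1)) * D.s (D.τ (w 1)))
  rw [Matrix.smul_apply, smul_eq_mul, mul_assoc]

/-- **The system in the basis of eigenvectors of one endomorphism.** -/
theorem psys (a1 : Alg1) (a2 : Alg2) (S : ASys D Ct) (hodd : ∀ i, D.odd (D.typ i))
    (htyp : ∀ i j, D.typ i = D.typ j) {F Y : Matrix I I ℂ} {m : I → ℂ} (hG : IsG D Y)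
    (hFY : F * Y = Y * Matrix.diagonal m)
    (hm : mten D F ∈ Submodule.span ℝ {u : Ten I 2 | Ct 2 u}) (hinj : Function.Injective m)
    (hτ : ∀ i, m (D.τ i) = (starRingEnd ℂ) (m i)) : PSys D (fun L u => Ct L (gT Y u)) where
  sys := asys a1 a2 hodd hG S
  odd := hodd
  typ := htyp
  diag z hz := by
    obtain ⟨p, hp⟩ := exists_real hinj hτ hz
    have h1 : z = fun i => aeval (m i) p := funext fun i => (hp i).symm
    rw [h1]
    clear h1 hp hz
    induction p using Polynomial.induction_on' with
    | add p r hp hr =>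
      have e : (Matrix.diagonal fun i => aeval (m i) (p + r)) =
          (Matrix.diagonal fun i => aeval (m i) p) + Matrix.diagonal fun i => aeval (m i) r := by
        rw [Matrix.diagonal_add]
        congr 1
        funext i
        rw [map_add]
      rw [e, mten_add]
      exact add_mem hp hr
    | monomial n c =>
      have hFn : ∀ n : ℕ, gT Y (mten D (Matrix.diagonal fun i => m i ^ n)) = mten D (F ^ n) := by
        intro n
        refine Rea.gT_mten hodd hG ?_
        induction n with
        | zero => simp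
        | succ n ih =>
          rw [pow_succ, Matrix.mul_assoc, hFY, ← Matrix.mul_assoc, ih, Matrix.mul_assoc,
            Matrix.diagonal_mul_diagonal]
          rfl
      have h2 := K0.mten_pow S hodd htyp hm n
      rw [← spanR a1 hG Ct 2, ← hFn n] at h2
      obtain ⟨u, hu, h3⟩ := h2
      have h4 : u = mten D (Matrix.diagonal fun i => m i ^ n) := inj a1 hG h3
      have e : (Matrix.diagonal fun i => aeval (m i) (monomial n c)) =
          (c : ℂ) • Matrix.diagonal fun i => m i ^ n := by
        rw [← Matrix.diagonal_smul]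
        congr 1
        funext i
        rw [aeval_monomial, Pi.smul_apply, smul_eq_mul]
        rfl
      rw [e, mten_sm, ← h4, Complex.coe_smul]
      exact Submodule.smul_mem _ _ hu

/-- `ψ` of the tensor of the identity -/
theorem psi_one : psiT D (mten D (1 : Matrix I I ℂ)) (mten D 1) = (Fintype.card I : ℂ) := by
  rw [← Matrix.diagonal_one, K0.psi_diag]
  simp

end Pool.Agent.Lib.MP_361a6f_ag.FL.CM
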