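import Pool.Agent.Lib.MP_361a6f_ag.FL.PT.StatPP
import Pool.Agent.Lib.MP_361a6f_ag.FL.PT0.Stat

/-!
# All abelian varieties, all codimensions: what is generated by the classes of codimension at most 2
-/

open CategoryTheory AlgebraicGeometry MonoidalCategory CartesianMonoidalCategory

universe u v w w'

namespace Pool.Agent.Lib.MP_361a6f_ag.FL

open Pool.Agent.Lib.MP_361a6f_ag.H3 Pool.Agent.Lib.MP_361a6f_ag.SQ
  Pool.Agent.Lib.MP_361a6f_ag.PP

/-- The hypotheses on the reduction: `X` is a group, for instance an abelian variety, with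
`H^0(X) = ℂ`, `ξ` is a divisor class of positive degree, `s` is a specialisation, and `F` is an
endomorphism of `X'` such that `F^* s(ξ) = q s(ξ)` for a natural number `q > 0`, and such that `F^*`
has `2 g` different eigenvalues on `H^1(X')`. -/
structure EQ.RedC {k : Type u} [Field k] {k' : Type v} [Field k']
    {W : CohomologyData.{u, 0, w} k ℂ} (𝒱 : VarietyClass k)
    {W' : CohomologyData.{v, 0, w'} k' ℂ} (𝒱' : VarietyClass k') (D : EQ.Data W W') : Prop where
  mem : 𝒱.mem D.X D.g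
  conn : ∀ x, W.Deg D.X 0 x → ∃ c, x = W.scal c 1
  group : EQ.Group D.X
  div : PositiveDivisor W D.X D.g D.ξ
  mem' : 𝒱'.mem D.X' D.g
  spec : EQ.IsSpec W D.X W' D.X' D.s
  pos : 0 < D.q
  frob : W'.pb D.F (D.s (.leaf 0) D.ξ) = W'.scal (D.q : ℂ) (D.s (.leaf 0) D.ξ)
  distinct : ∃ a : Fin (2 * D.g) → ℂ, Function.Injective a ∧
    ∀ i, ∃ x, W'.Deg D.X' 1 x ∧ x ≠ 0 ∧ W'.pb D.F x = W'.scal (a i) x

/-- **Theorem CM.** `Q1` modulo numerical equivalence holds, in all codimensions, for all classes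
on the powers of an abelian variety `X` that are generated by the algebraic classes of codimension
at most `2` on these powers. Here `X'` is a reduction of `X` over the algebraic closure of a finite
field and `ξ` is the class of an ample divisor, so that `s(ξ)` is the class of an ample divisor on
`X'`. -/
def ThmCM : Prop :=
  ∀ {k : Type u} [Field k] (W : CohomologyData.{u, 0, w} k ℂ) (𝒱 : VarietyClass k)
    (_ : IsWeilCohomology W 𝒱) {k' : Type v} [Field k'] (W' : CohomologyData.{v, 0, w'} k' ℂ)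
    (𝒱' : VarietyClass k') (_ : IsWeilCohomology W' 𝒱') (D : EQ.Data W W') (_ : EQ.RedC 𝒱 𝒱' D)
    (_ : EQ.Effective W' D.X' D.g (D.s (.leaf 0) D.ξ))
    (P : Prd 1) (η : W.coh (EQ.pw D.X P)) (_ : IsPol W (fun _ => D.ξ) P η) (j : ℕ)
    (z : W.coh (EQ.pw D.X P)) (_ : EQ.Made2 W D.X D.g P j z)
    (_ : 2 * j ≤ P.dim fun _ => D.g)
    (_ : EQ.NumTrivial W (EQ.pw D.X P) (W.cup (η ^ ((P.dim fun _ => D.g) - 2 * j + 1)) z))
    (_ : ¬ EQ.NumTrivial W (EQ.pw D.X P) z),
    RatPos ((-1) ^ j * W.Tr (W.cup (η ^ ((P.dim fun _ => D.g) - 2 * j)) (W.cup z z)))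

end Pool.Agent.Lib.MP_361a6f_ag.FL
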