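import Pool.Agent.Lib.MP_361a6f_ag.FL.CM.Top
import Pool.Agent.Lib.MP_361a6f_ag.FL.CM.Four

/-!
# Theorem CM
-/

open CategoryTheory AlgebraicGeometry MonoidalCategory CartesianMonoidalCategory

universe u v w w'

set_option autoImplicit false

namespace Pool.Agent.Lib.MP_361a6f_ag.FL

open Pool.Agent.Lib.MP_361a6f_ag.H3 Pool.Agent.Lib.MP_361a6f_ag.SQ
  Pool.Agent.Lib.MP_361a6f_ag.FL.PT Pool.Agent.Lib.MP_361a6f_ag.FL.E

/-- positivity in length four -/
theorem CM.fourRow : CM.FourRow.{u, v, w, w'} := by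
  intro k _ W 𝒱 hW k' _ W' 𝒱' hW' D h hE c u hu
  refine CM.four (CM.hst hW h.mem h.div c) (spcOf h.spec D.ξ) hW' h.mem' D.F h.pos h.conn h.div ?_
    hE h.distinct (Submodule.subset_span hu)
  have h2 : (((D.q : ℚ) : ℂ)) = (D.q : ℂ) := by norm_cast
  rw [h2]
  exact h.frob

/-- **Theorem CM.** -/
theorem thmCM : ThmCM.{u, v, w, w'} := thmCM_of CM.fourRow

end Pool.Agent.Lib.MP_361a6f_ag.FL
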