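import Pool.Agent.Lib.MP_361a6f_ag.FL.PT0.Fin

/-!
# Positivity in length two from positivity in length four
-/

universe u v w w'

set_option autoImplicit false
set_option linter.unusedSectionVars false

namespace Pool.Agent.Lib.MP_361a6f_ag.FL.CM

open Pool.Agent.Lib.MP_361a6f_ag.FL.E

variable {I Λ : Type} [Fintype I] [DecidableEq I] [DecidableEq Λ] {D : Dat I Λ}

/-- the value of `ψ` on the invariant tensor -/
theorem psi_om (hodd : ∀ i, D.odd (D.typ i)) (α : Λ) (hα : ∀ i, D.typ i = α) :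
    psiT D (om D α) (om D α) = (Fintype.card I : ℂ) := by
  have h2 : psiT D (om D α) (om D α)
      = ∑ p : I × I, sg D ![p.1, p.2] * (om D α ![p.1, p.2] * om D α (D.τ ∘ ![p.1, p.2])) :=
    Fintype.sum_equiv (finTwoArrowEquiv I) _ _ fun w => by
      have e : w = ![w 0, w 1] := by
        funext i
        fin_cases i <;> rfl
      have e1 : ((finTwoArrowEquiv I) w) = (w 0, w 1) := rfl
      rw [e1]
      conv_lhs => rw [e]
  have hs : ∀ i, D.s i * D.s i = 1 := by
    intro i
    rcases D.s_val i with h | h <;> rw [h] <;> norm_num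
  rw [h2, Fintype.sum_prod_type]
  have h3 : ∀ i : I, ∑ j : I, sg D ![i, j] * (om D α ![i, j] * om D α (D.τ ∘ ![i, j])) = 1 := by
    intro i
    rw [Finset.sum_eq_single (D.τ i)]
    · have hsτ : D.s (D.τ i) = - D.s i := (D.odd_τ i (hodd i)).2
      have e1 : sg D ![i, D.τ i] = -1 := by
        unfold sg
        rw [Fin.prod_univ_two]
        show D.s i * D.s (D.τ i) = -1
        rw [hsτ, mul_neg, hs]
      have e2 : om D α ![i, D.τ i] = D.s i := if_pos ⟨hα i, rfl⟩
      have e3 : om D α (D.τ ∘ ![i, D.τ i]) = D.s (D.τ i) :=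
        if_pos ⟨hα _, by
          show D.τ (D.τ i) = D.τ (D.τ i)
          rfl⟩
      rw [e1, e2, e3, hsτ, mul_neg, hs]
      norm_num
    · intro j _ hj
      have e2 : om D α ![i, j] = 0 := if_neg fun h => hj h.2
      rw [e2, zero_mul, mul_zero]
    · intro h
      exact absurd (Finset.mem_univ _) h
  rw [Finset.sum_congr rfl fun i _ => h3 i, Finset.sum_const, Finset.card_univ, nsmul_eq_mul,
    mul_one]

/-- **Length two from length four.** -/
theorem two_of_four {Bt : (L : ℕ) → Ten I L → Prop} (S : ASys D Bt)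
    (hodd : ∀ i, D.odd (D.typ i)) (α : Λ) (hα : ∀ i, D.typ i = α)
    (four : ∀ u : Ten I 4, Bt 4 u → ∃ r : ℝ, 0 ≤ r ∧ psiT D u u = (r : ℂ)) {u : Ten I 2}
    (hu : Bt 2 u) : ∃ r : ℝ, 0 ≤ r ∧ psiT D u u = (r : ℂ) := by
  by_cases hI : Nonempty I
  swap
  · refine ⟨0, le_rfl, ?_⟩
    rw [psiT, Finset.sum_eq_zero]
    · exact Complex.ofReal_zero.symm
    · intro w _
      exact absurd ⟨w 0⟩ hI
  obtain ⟨r, hr, h1⟩ := four (outer u (om D α)) (S.outer 2 2 u _ hu (S.om α))
  have h2 : psiT D (outer u (om D α)) (outer u (om D α))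
      = psiT D u u * (Fintype.card I : ℂ) := by
    rw [← psi_om hodd α hα]
    exact GPOS.psiT_outer D _ _ _ _
  have hc : (0 : ℝ) < Fintype.card I := by exact_mod_cast Fintype.card_pos
  refine ⟨r / Fintype.card I, by positivity, ?_⟩
  have h3 : psiT D u u * (Fintype.card I : ℂ) = (r : ℂ) := by
    rw [← h2]
    exact h1
  have hc' : (Fintype.card I : ℂ) ≠ 0 := by exact_mod_cast hc.ne'
  rw [Complex.ofReal_div, Complex.ofReal_natCast, eq_div_iff hc']
  exact h3

end Pool.Agent.Lib.MP_361a6f_ag.FL.CM
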