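import Pool.Agent.Lib.MP_361a6f_ag.FL.CM.StatCM
import Pool.Agent.Lib.MP_361a6f_ag.FL.CM.Two

/-!
# Theorem CM from positivity in length four
-/

open CategoryTheory AlgebraicGeometry MonoidalCategory CartesianMonoidalCategory

universe u v w w'

set_option autoImplicit false
set_option linter.unusedSectionVars false

namespace Pool.Agent.Lib.MP_361a6f_ag.FL.CM

open Pool.Agent.Lib.MP_361a6f_ag.H3 Pool.Agent.Lib.MP_361a6f_ag.SQ
  Pool.Agent.Lib.MP_361a6f_ag.PP Pool.Agent.Lib.MP_361a6f_ag.FL.E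
  Pool.Agent.Lib.MP_361a6f_ag.FL.E.QS Pool.Agent.Lib.MP_361a6f_ag.FL.PT

variable {k : Type u} [Field k] {k' : Type v} [Field k'] {W : CohomologyData.{u, 0, w} k ℂ}
  {𝒱 : VarietyClass k} {W' : CohomologyData.{v, 0, w'} k' ℂ} {𝒱' : VarietyClass k'}
  (hW : IsWeilCohomology W 𝒱) (hW' : IsWeilCohomology W' 𝒱') {D : EQ.Data W W'}
  (mem : 𝒱.mem D.X D.g) (div : PositiveDivisor W D.X D.g D.ξ) (mem' : 𝒱'.mem D.X' D.g)
  (spec : EQ.IsSpec W D.X W' D.X' D.s) (c : Hst.Core W D.X D.g D.ξ)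

/-- the host of `X` -/
noncomputable abbrev hst : Host W 𝒱 1 := c.host hW mem div.1

/-- the host of the reduction -/
noncomputable abbrev hstY : Host W' 𝒱' 1 :=
  host2 (hst hW mem div c) (spcOf spec D.ξ) hW' mem'

theorem at_le (L : ℕ) (u : Ten (Sub c.D (0, 1)) L) (hu : At1 (hst hW mem div c) L u) :
    At1 (hstY hW hW' mem div mem' spec c) L u :=
  E.at_le (hst hW mem div c) (spcOf spec D.ξ) hW' mem' (ge (hst hW mem div c))
    (ge (hstY hW hW' mem div mem' spec c)) L hu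

/-- `ψ` is positive semidefinite on the algebraic tensors of length four of the reduction -/
def Four : Prop := ∀ u : Ten (Sub c.D (0, 1)) 4, At1 (hstY hW hW' mem div mem' spec c) 4 u →
  ∃ r : ℝ, 0 ≤ r ∧ psiT (subD c.D (0, 1)) u u = (r : ℂ)

include hW' mem' spec in
theorem pos2 (four : Four hW hW' mem div mem' spec c) (u : Ten (Sub c.D (0, 1)) 2)
    (hu : At1 (hst hW mem div c) 2 u) :
    ∃ r : ℝ, 0 ≤ r ∧ psiT (subD c.D (0, 1)) u u = (r : ℂ) :=
  two_of_four (aSys_sub (α := ((0, 1) : Fin 1 × ℕ))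
      (aSys_at (at_ (hstY hW hW' mem div mem' spec c))))
    (fun i => by
      show (hstY hW hW' mem div mem' spec c).D.odd ((hstY hW hW' mem div mem' spec c).D.typ i.1)
      rw [i.2]
      exact Hst.odd_one (hstY hW hW' mem div mem' spec c) 0) (0, 1) (fun i => i.2)
    (fun u hu => four u hu)
    (at_le hW hW' mem div mem' spec c 2 u hu)

variable (conn : ∀ x, W.Deg D.X 0 x → ∃ c, x = W.scal c 1) (unital : EQ.Unital D.X)

include hW hW' mem div mem' spec conn unital in
/-- `Q1` modulo numerical equivalence in codimension at most two. -/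
theorem q1num (four : ∀ c, Four hW hW' mem div mem' spec c) (P : Prd 1)
    (η : W.coh (EQ.pw D.X P)) (hη : IsPol W (fun _ => D.ξ) P η) (j : ℕ)
    (hj : j ≤ 2) : EQ.Q1Num W (EQ.pw D.X P) (P.dim fun _ => D.g) η j := by
  obtain ⟨hHL, hAL, -⟩ := FL.unital hW mem conn unital div
  obtain ⟨c⟩ := Hst.exists_core hW mem div.1 hHL hAL
  refine EndFr.q1num (hst hW mem div c)
    (fun _ => abelianType_of_unital hW mem conn unital div) (fun _ => div) hη j
    fun h0 => ?_
  have hj2 : j = 1 ∨ j = 2 := by omega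
  rcases hj2 with rfl | rfl
  · exact EndFr.posS_of (hst hW mem div c) fun u hu => pos2 hW hW' mem div mem' spec c (four c) u hu
  · exact EndFr.posS_of (hst hW mem div c) fun u hu =>
      four c u (at_le hW hW' mem div mem' spec c 4 u hu)

include hW hW' mem div mem' spec conn unital in
/-- Everything that is generated by the classes of codimension at most two. -/
theorem pp (four : ∀ c, Four hW hW' mem div mem' spec c) (P : Prd 1)
    (η : W.coh (EQ.pw D.X P)) (hη : IsPol W (fun _ => D.ξ) P η) (j : ℕ)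
    (z : W.coh (EQ.pw D.X P)) (hz : EQ.Made2 W D.X D.g P j z)
    (hj : 2 * j ≤ P.dim fun _ => D.g)
    (hp : EQ.NumTrivial W (EQ.pw D.X P) (W.cup (η ^ ((P.dim fun _ => D.g) - 2 * j + 1)) z))
    (hn : ¬ EQ.NumTrivial W (EQ.pw D.X P) z) :
    RatPos ((-1) ^ j * W.Tr (W.cup (η ^ ((P.dim fun _ => D.g) - 2 * j)) (W.cup z z))) :=
  PTG.gen_of_q1 hW mem conn unital div
    (fun P j hj => q1num hW hW' mem div mem' spec conn unital four P _ (HodgeZ.isPol _ P) j hj)
    hη hz hj hp hn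

/-- the row that is left: positivity in length four from an endomorphism with `2 g` different
eigenvalues -/
def FourRow : Prop :=
  ∀ {k : Type u} [Field k] {W : CohomologyData.{u, 0, w} k ℂ} {𝒱 : VarietyClass k}
    (hW : IsWeilCohomology W 𝒱) {k' : Type v} [Field k'] {W' : CohomologyData.{v, 0, w'} k' ℂ}
    {𝒱' : VarietyClass k'} (hW' : IsWeilCohomology W' 𝒱') {D : EQ.Data W W'}
    (h : EQ.RedC 𝒱 𝒱' D) (_ : EQ.Effective W' D.X' D.g (D.s (.leaf 0) D.ξ))
    (c : Hst.Core W D.X D.g D.ξ), Four hW hW' h.mem h.div h.mem' h.spec c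

end Pool.Agent.Lib.MP_361a6f_ag.FL.CM

namespace Pool.Agent.Lib.MP_361a6f_ag.FL

open Pool.Agent.Lib.MP_361a6f_ag.H3 Pool.Agent.Lib.MP_361a6f_ag.SQ
  Pool.Agent.Lib.MP_361a6f_ag.FL.PT

/-- **Theorem CM**, from the row. -/
theorem thmCM_of (hf : CM.FourRow.{u, v, w, w'}) : ThmCM.{u, v, w, w'} := by
  intro k _ W 𝒱 hW k' _ W' 𝒱' hW' D h hE P η hη j z hz hj hp hn
  exact CM.pp hW hW' h.mem h.div h.mem' h.spec h.conn (PT0.unital_of_group h.group)
    (fun c => hf hW hW' h hE c) P η hη j z hz hj hp hn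

end Pool.Agent.Lib.MP_361a6f_ag.FL
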